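import Mathlib
import Pool.Agent.Helper848.Lazy.Game
import Pool.Agent.N448.Lazy.Small

set_option autoImplicit false

/-!
# Graphs of order `O(k (log k)^(3/2))` with lazy cop number larger than `k`

The definitions of the lazy game (`LazyMove`, `CopsWin`, `lazyCopNumber`) are those of the starting
files. The hypercube `Q_m` has `2 ^ m` vertices and lazy cop number of order `2 ^ m / m ^ (3/2)`, so
for `k` cops a cube with `O(k (log k) ^ (3/2))` vertices is enough for the robber, and this is less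
than `k ^ 2` for all large `k`.
-/

namespace Pool.Agent.Results.MP_9f93d5_co.SmallLazyGraphs

open LazyCops Pool.Agent.N448.Lazy

/-- (1) There is a constant `C` such that for all large `k` some connected graph with at most
`C k (log k)^(3/2)` and at most `k ^ 2` vertices has lazy cop number larger than `k`.
(2) So, for all large `k`, some connected graph `G` on `n` vertices with `Δ(G) ≥ n - k ^ 2` has
lazy cop number larger than `k`.
(3) The assertion of Q1 fails. -/
theorem result :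
    (∃ C : ℝ, 0 < C ∧ ∃ k₀ : ℕ, ∀ k : ℕ, k₀ ≤ k →
      ∃ (V : Type) (_ : Fintype V) (G : SimpleGraph V), G.Connected ∧
        (Fintype.card V : ℝ) ≤ C * k * Real.log k ^ (3 / 2 : ℝ) ∧
        Fintype.card V ≤ k ^ 2 ∧ k < lazyCopNumber G) ∧
    (∃ k₀ : ℕ, ∀ k : ℕ, k₀ ≤ k →
      ∃ (V : Type) (_ : Fintype V) (G : SimpleGraph V) (_ : DecidableRel G.Adj), G.Connected ∧
        (Fintype.card V : ℤ) - (k : ℤ) ^ 2 ≤ G.maxDegree ∧ k < lazyCopNumber G) ∧
    ¬ ∀ k : ℕ, 1 ≤ k → ∀ (V : Type) [Fintype V] (G : SimpleGraph V) [DecidableRel G.Adj],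
      G.Connected → (Fintype.card V : ℤ) - (k : ℤ) ^ 2 ≤ G.maxDegree → lazyCopNumber G ≤ k := by
  classical
  obtain ⟨C, hC, k₀, h⟩ := exists_cube
  have h2 : ∀ k : ℕ, k₀ ≤ k →
      ∃ (V : Type) (_ : Fintype V) (G : SimpleGraph V) (_ : DecidableRel G.Adj), G.Connected ∧
        (Fintype.card V : ℤ) - (k : ℤ) ^ 2 ≤ G.maxDegree ∧ k < lazyCopNumber G := by
    intro k hk
    obtain ⟨m, -, hm2, hm3⟩ := h k hk
    refine ⟨Fin m → Bool, inferInstance, hypercube m, Classical.decRel _, cube_connected m, ?_, hm3⟩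
    have h5 : (2 : ℤ) ^ m ≤ (k : ℤ) ^ 2 := by exact_mod_cast hm2
    have h6 : (0 : ℤ) ≤ ((hypercube m).maxDegree : ℤ) := Int.natCast_nonneg _
    have h7 : (Fintype.card (Fin m → Bool) : ℤ) = 2 ^ m := by simp
    rw [h7]
    linarith
  refine ⟨⟨C, hC, k₀, fun k hk => ?_⟩, ⟨k₀, h2⟩, fun H => ?_⟩
  · obtain ⟨m, hm1, hm2, hm3⟩ := h k hk
    refine ⟨Fin m → Bool, inferInstance, hypercube m, cube_connected m, ?_, ?_, hm3⟩
    · simpa using hm1
    · simpa using hm2
  · obtain ⟨V, hV, G, hd, h3, h4, h5⟩ := h2 (max 1 k₀) (le_max_right _ _)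
    exact absurd (H (max 1 k₀) (le_max_left _ _) V G h3 h4) (not_le.2 h5)

end Pool.Agent.Results.MP_9f93d5_co.SmallLazyGraphs
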